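import Pool.Agent.H78.SQ.Main

set_option autoImplicit false

/-!
# Products, and the rational multiples of `√2`: zeros, ones and digit changes

No hypothesis is assumed. For a real number `x ≥ 0` let `least x n` be the least of the numbers of
zeros, of ones and of digit changes among its first `n` binary digits.

* The number of digit changes of `x y` up to `n` is at most
  `2 (least x n + C) (least y n + C) + C`.
* So `n ≤ 2 (least √2 n + 2) (least (√2 / 3) n + 2) + 3` for all `n`, and
  `c n ≤ (least x n + C) (least y n + C)` whenever `x y` is rational and not dyadic, for instance for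
  `x = √2`, `y = r √2` (`2 r` not dyadic), and for `x = |a + b √2|`, `y = |a - b √2|`.
* Consequently the prefixes `⌊2 ^ k √2⌋`, `k < n`, of `√2` satisfy
  `c n ≤ (least √2 n + C) (#{k < n : q ∤ ⌊2 ^ k √2⌋ + e} + C)` for every odd `q ≥ 3` and `e = 0, 1`.
* Let the rational number `r > 0` have an odd prime `p` in its denominator which divides none of the
  numbers `l - 1`, `l` a prime factor of the denominator (for instance, the greatest prime
  factor), and with `2 ^ (p - 1) ≢ 1` modulo `p ^ 2`. Then `r √2` has at least `(1 / √3 - ε) √n`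
  zeros, ones, and digit changes among its first `n` digits, for large `n`. The constant does not
  depend on `r`.
* For all rational `r > 0` which are not dyadic the same holds with the constant `1 / √L`,
  `L = ⌈2 log₂ q⌉`, where `q` is the odd part of the denominator.

Method: the number of digit changes of an integer is at most twice its signed binary weight, and the
weight is submultiplicative; `2 r ^ 2` is rational, its denominator is divisible by `p ^ 2`, and so
its binary expansion runs through complete cosets of the group of order `p`, which are equally spaced.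
-/

namespace Pool.Agent.Results.MP_0308e6_nt.ProductsAndMultiples

/-- the binary digit of `x ≥ 0` at the place `k` after the point (for `k = 0` the last digit of the
integer part) -/
noncomputable def bit (x : ℝ) (k : ℕ) : ℤ := ⌊x * 2 ^ k⌋ % 2

/-- the number of ones among the digits at the places `1, …, n` -/
noncomputable def ones (x : ℝ) (n : ℕ) : ℕ := {k ∈ Finset.Icc 1 n | bit x k = 1}.card

/-- the number of zeros among the digits at the places `1, …, n` -/
noncomputable def zeros (x : ℝ) (n : ℕ) : ℕ := {k ∈ Finset.Icc 1 n | bit x k = 0}.card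

/-- the number of `k < n` for which the digits at the places `k` and `k + 1` are different -/
noncomputable def changes (x : ℝ) (n : ℕ) : ℕ :=
  {k ∈ Finset.range n | bit x k ≠ bit x (k + 1)}.card

/-- the least of the numbers of zeros, of ones and of digit changes -/
noncomputable def least (x : ℝ) (n : ℕ) : ℕ := min (zeros x n) (min (ones x n) (changes x n))

/-- (1) Digit changes of products. (2) `√2` and `√2 / 3`. (3) Numbers whose product is rational and
not dyadic. (4) Rational multiples `r √2`, with a constant which does not depend on `r`; the odd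
prime factor `p` of the denominator must not divide any `l - 1`, `l` a prime factor of the denominator
(this holds for the greatest prime factor), and `2 ^ (p - 1) ≢ 1` modulo `p ^ 2`. (5) All rational
multiples `r √2` with `r` not dyadic, where `q` is the odd part of the denominator of `r`. (6) The
prefixes `⌊2 ^ k √2⌋` modulo an odd number `q ≥ 3`. -/
theorem result :
    (∀ x y : ℝ, 0 ≤ x → 0 ≤ y → ∀ n : ℕ,
      changes (x * y) n ≤ 2 * ((least x n + ⌊x⌋₊ + 2) * (least y n + ⌊y⌋₊ + 2)) + ⌈x + y⌉₊) ∧
    (∀ n : ℕ, n ≤ 2 * ((least (Real.sqrt 2) n + 2) * (least (Real.sqrt 2 / 3) n + 2)) + 3) ∧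
    (∀ x y : ℝ, 0 < x → 0 < y → ∀ ρ : ℚ, x * y = ρ → (¬ ∃ k : ℕ, ρ.den = 2 ^ k) →
      ∃ c > (0 : ℝ), ∃ C : ℝ, ∀ n : ℕ, c * n ≤ (least x n + C) * (least y n + C)) ∧
    (∀ (r : ℚ) (p : ℕ), 0 < r → p.Prime → p ≠ 2 → p ∣ r.den →
      (∀ l : ℕ, l.Prime → l ∣ r.den → ¬ p ∣ l - 1) → ¬ p ^ 2 ∣ 2 ^ (p - 1) - 1 →
      ∀ ε > 0, ∃ n₀ : ℕ, ∀ n ≥ n₀,
        (1 / Real.sqrt 3 - ε) * Real.sqrt n ≤ least (r * Real.sqrt 2) n) ∧
    (∀ (r : ℚ) (u q L : ℕ), 0 < r → Odd q → q ≠ 1 → r.den = 2 ^ u * q → q ^ 2 ≤ 2 ^ L →
      ∀ ε > 0, ∃ n₀ : ℕ, ∀ n ≥ n₀,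
        (1 / Real.sqrt L - ε) * Real.sqrt n ≤ least (r * Real.sqrt 2) n) ∧
    (∀ q : ℕ, Odd q → q ≠ 1 → ∃ c > (0 : ℝ), ∃ C : ℝ, ∀ n : ℕ,
      c * n ≤ (least (Real.sqrt 2) n + C) *
        (({k ∈ Finset.range n | ¬ (q : ℤ) ∣ ⌊Real.sqrt 2 * 2 ^ k⌋}.card : ℝ) + C) ∧
      c * n ≤ (least (Real.sqrt 2) n + C) *
        (({k ∈ Finset.range n | ¬ (q : ℤ) ∣ ⌊Real.sqrt 2 * 2 ^ k⌋ + 1}.card : ℝ) + C)) :=
  ⟨fun _ _ hx hy n => H78.SQ.changes_product hx hy n,
    fun n => H78.SQ.sqrt_two_third n,
    fun _ _ hx hy _ hρ hd => by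
      obtain ⟨c, hc, C, _, h⟩ := H78.SQ.product_rational hx hy hρ hd
      exact ⟨c, hc, C, h⟩,
    fun _ _ hr hp hp2 hpd hmax hW _ hε => H78.SQ.multiples_uniform hr hp hp2 hpd hmax hW hε,
    fun _ _ _ _ hr hq hq1 hd hL _ hε => H78.SQ.multiples_log hr hq hq1 hd hL hε,
    fun _ hq hq1 => H78.SQ.prefixes hq hq1⟩

end Pool.Agent.Results.MP_0308e6_nt.ProductsAndMultiples
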