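import Pool.Agent.H90.SR.Dig

/-!
# Short runs of equal digits of `√2` at late places

No hypothesis is assumed.

1. Let `0 ≤ δ < 1 / 6`.  For all large `N` there is a maximal run of equal binary digits of `√2`, at the
places `k + 1, …, k + t`, with `N ^ δ ≤ k`, `k + t < N` and `t < k / N ^ δ`.  In particular `t < k ^ (1 - δ)`
for infinitely many runs: the lengths of the runs do not grow almost linearly with the place.
2. For every real quadratic irrational `ξ` and every base `b ≥ 2` there is `δ > 0` with this property.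
3. Let `a₂ ξ ^ 2 + a₁ ξ + a₀ = 0` with integers `a_i`, let `p` be an odd prime such that `a₁ ^ 2 - 4 a₂ a₀`
is a nonresidue modulo `p`, let `∑ q_j X ^ j` be an integer polynomial, `e` an integer and let `p` not divide
`b (b - 1) ∑ q_j b ^ j`.  Let `(p + 3) δ < 1`.  Consider the places `k` where the digits of `ξ` in
base `b` do not satisfy the relation `∑ q_j digit (k + j) = e`.  For all large `N` there are two such
places `k < k'` with `N ^ δ ≤ k`, `k' < N` and `k' - k < k / N ^ δ`.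
4. The same for the places of the nonzero terms of any expansion `x = ∑ ε_k b ^ (-k)` with bounded
integers `ε_k`, if `x ^ 2 = D` is an integer and a nonresidue modulo an odd prime `p` not dividing `b`.

Proof of 4 (from which the others follow).  Let `B = ∑ ε_k b ^ (-k) X ^ k` modulo `p`, let `f R` be the sum
of the coefficients of `B` up to the place `R`, let `A` be the set of the places of the nonzero
coefficients, and suppose that consecutive elements `a < a'` of `A` in `[N ^ δ, N]` satisfy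
`a' ≤ g (a' - a)`, `g` about `N ^ δ`.  By the starting file `Pool.Graph.….DC.Good`, for all `R < N` outside
a set of fewer than `w` places, `w` about `N ^ (p δ)`, one has `f (R / p) = - f R`, and the sum of the
coefficients of `B ^ 2` up to `R` is `D`.  The first identity shows that `A` is, up to errors less than
`w`, invariant under the multiplication by `p`, so that there is a chain `z_0 < z_1 < …` in `A`,
`|p z_i - z_(i+1)| < w`, and that the number `m_i` of the elements of `A` in `[z_i, z_(i+1))` does not increase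
with `i`.  Now let `s = z_n` be large compared with `g ^ 2 z_2`, and let `u ∈ A`, `z_0 ≤ u < z_2`.  By the
second identity the coefficients of `B ^ 2` near `s + u` have the sum zero, so there is another pair
`y ≥ y'` of elements of `A` with `|y + y' - s - u| < w`.  Here `s / 2 < y < s`, so `y' > s / g`, and `u` is
determined by `y`, since the elements of `A` near `y'` are further than `z_2 + 2 w` apart.  So
`m_0 + m_1 ≤ m_(n-1) ≤ m_1`, but `m_0 ≥ 1`.
-/

set_option autoImplicit false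

open Finset Filter

namespace Pool.Agent.Results.MP_0308e6_nt.ShortRuns

/-- the `k`-th digit of `ξ` after the point in base `b` -/
noncomputable def digit (b : ℕ) (ξ : ℝ) (k : ℕ) : ℤ := ⌊ξ * (b : ℝ) ^ k⌋ % (b : ℤ)

/-- the places `k + 1, …, k + t` form a maximal run of equal digits: the digits at these places are
equal and they differ from the digits at the places `k` and `k + t + 1` -/
def IsRun (b : ℕ) (ξ : ℝ) (k t : ℕ) : Prop :=
  1 ≤ t ∧ digit b ξ k ≠ digit b ξ (k + 1) ∧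
    (∀ i, 1 ≤ i → i ≤ t → digit b ξ (k + i) = digit b ξ (k + 1)) ∧
    digit b ξ (k + t) ≠ digit b ξ (k + t + 1)

theorem result :
    (∀ δ : ℝ, 0 ≤ δ → δ < 1 / 6 → ∀ᶠ N : ℕ in atTop, ∃ k t : ℕ, IsRun 2 (√2) k t ∧
      (N : ℝ) ^ δ ≤ k ∧ k + t < N ∧ (t : ℝ) * (N : ℝ) ^ δ < k) ∧
    (∀ (b : ℕ) (ξ : ℝ) (a₂ a₁ a₀ : ℤ), 2 ≤ b → Irrational ξ → a₂ ≠ 0 →
      (a₂ : ℝ) * ξ ^ 2 + a₁ * ξ + a₀ = 0 →
      ∃ δ : ℝ, 0 < δ ∧ ∀ᶠ N : ℕ in atTop, ∃ k t : ℕ, IsRun b ξ k t ∧
        (N : ℝ) ^ δ ≤ k ∧ k + t < N ∧ (t : ℝ) * (N : ℝ) ^ δ < k) ∧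
    (∀ (p : ℕ) (_ : Fact p.Prime) (b : ℕ) (ξ : ℝ) (a₂ a₁ a₀ : ℤ) (J : ℕ) (q : ℕ → ℤ) (e : ℤ) (δ : ℝ),
      p ≠ 2 → 2 ≤ b → (a₂ : ℝ) * ξ ^ 2 + a₁ * ξ + a₀ = 0 →
      ¬ IsSquare ((a₁ ^ 2 - 4 * a₂ * a₀ : ℤ) : ZMod p) →
      ¬ (p : ℤ) ∣ b * (b - 1) * ∑ j ∈ range J, q j * (b : ℤ) ^ j → 0 ≤ δ → (p + 3) * δ < 1 →
      ∀ᶠ N : ℕ in atTop, ∃ k k' : ℕ, (N : ℝ) ^ δ ≤ k ∧ k < k' ∧ k' < N ∧
        ∑ j ∈ range J, q j * digit b ξ (k + j) ≠ e ∧
        ∑ j ∈ range J, q j * digit b ξ (k' + j) ≠ e ∧ ((k' : ℝ) - k) * (N : ℝ) ^ δ < k) ∧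
    (∀ (p : ℕ) (_ : Fact p.Prime) (b C : ℕ) (ε : ℕ → ℤ) (x : ℝ) (D : ℤ) (δ : ℝ),
      p ≠ 2 → 2 ≤ b → ¬ p ∣ b → (∀ k, |ε k| ≤ C) → HasSum (fun k => (ε k : ℝ) / (b : ℝ) ^ k) x →
      x ^ 2 = D → ¬ IsSquare (D : ZMod p) → 0 ≤ δ → (p + 3) * δ < 1 →
      ∀ᶠ N : ℕ in atTop, ∃ k k' : ℕ, (N : ℝ) ^ δ ≤ k ∧ k < k' ∧ k' < N ∧ ε k ≠ 0 ∧ ε k' ≠ 0 ∧
        ((k' : ℝ) - k) * (N : ℝ) ^ δ < k) := by
  have euler : ∀ (p : ℕ) (_ : Fact p.Prime) (D : ℤ), p ≠ 2 → ¬ IsSquare (D : ZMod p) →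
      (D : ZMod p) ^ ((p - 1) / 2) = -1 := by
    intro p hp D hp2 h
    rw [← legendreSym.eq_neg_one_iff] at h
    have h5 := legendreSym.eq_pow p D
    rw [h] at h5
    have h6 : p / 2 = (p - 1) / 2 := by
      have := hp.out.odd_of_ne_two hp2
      rcases this with ⟨k, rfl⟩
      omega
    rw [h6] at h5
    rw [← h5]
    push_cast
    ring
  refine ⟨?_, ?_, ?_, ?_⟩
  · intro δ hδ0 hδ
    have h3 : ¬ IsSquare ((0 ^ 2 - 4 * 1 * (-2) : ℤ) : ZMod 3) := by decide
    have : Fact (Nat.Prime 3) := ⟨Nat.prime_three⟩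
    exact Pool.Agent.H90.SR.run_eventually (p := 3) (by norm_num) le_rfl (√2) 1 0 (-2)
      (by push_cast; rw [Real.sq_sqrt (by norm_num)]; norm_num)
      (euler 3 this _ (by norm_num) h3) (by decide) δ hδ0 (by push_cast; linarith)
  · intro b ξ a₂ a₁ a₀ hb hirr ha₂ hξ
    have hsq : ((2 * a₂ : ℤ) * ξ + a₁) ^ 2 = ((a₁ ^ 2 - 4 * a₂ * a₀ : ℤ) : ℝ) := by
      push_cast
      linear_combination (4 * a₂ : ℝ) * hξ
    have hDnn : 0 ≤ a₁ ^ 2 - 4 * a₂ * a₀ := by
      have h1 : (0 : ℝ) ≤ ((a₁ ^ 2 - 4 * a₂ * a₀ : ℤ) : ℝ) := by rw [← hsq]; positivity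
      exact_mod_cast h1
    obtain ⟨D, hD⟩ := Int.eq_ofNat_of_zero_le hDnn
    have hDsq : ¬ IsSquare D := by
      rintro ⟨m, hm⟩
      rw [hD, hm] at hsq
      have h1 : ((2 * a₂ : ℤ) * ξ + a₁ - m) * ((2 * a₂ : ℤ) * ξ + a₁ + m) = 0 := by
        push_cast at hsq ⊢
        linear_combination hsq
      have h2 : Irrational (((2 * a₂ : ℤ) : ℝ) * ξ) := hirr.intCast_mul (by omega)
      rcases mul_eq_zero.1 h1 with h | h
      · apply h2
        refine ⟨((m - a₁ : ℤ) : ℚ), ?_⟩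
        push_cast at h ⊢
        linear_combination -h
      · apply h2
        refine ⟨((-m - a₁ : ℤ) : ℚ), ?_⟩
        push_cast at h ⊢
        linear_combination -h
    obtain ⟨p, hpM, hp2, hp, hn⟩ := Pool.Agent.H90.SR.exists_nonres_pow D hDsq (b * b)
    refine ⟨1 / (p + 4), by positivity, ?_⟩
    apply Pool.Agent.H90.SR.run_eventually hp2 hb ξ a₂ a₁ a₀ hξ (by rw [hD]; exact hn)
      (by
        intro h
        have h1 : (b : ℤ) * (b - 1) = ((b * (b - 1) : ℕ) : ℤ) := by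
          push_cast [Nat.cast_sub (show 1 ≤ b by omega)]
          ring
        rw [h1, Int.natCast_dvd_natCast] at h
        have h2 : 0 < b * (b - 1) := by
          apply Nat.mul_pos <;> omega
        have h3 := Nat.le_of_dvd h2 h
        have h4 : b * (b - 1) ≤ b * b := Nat.mul_le_mul_left _ (by omega)
        omega) _ (by positivity)
    rw [mul_one_div, div_lt_one (by positivity)]
    linarith
  · intro p hp b ξ a₂ a₁ a₀ J q e δ hp2 hb hξ hn hpb hδ0 hδ
    exact Pool.Agent.H90.SR.relation_eventually hp2 hb ξ a₂ a₁ a₀ hξ (euler p hp _ hp2 hn) J q e hpb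
      δ hδ0 hδ
  · intro p hp b C ε x D δ hp2 hb hpb hε hx hD hn hδ0 hδ
    exact Pool.Agent.H90.SR.gap_eventually hp2 b hb (by rw [Ne, ZMod.natCast_eq_zero_iff]; exact hpb)
      C ε hε x hx D hD (euler p hp _ hp2 hn) δ hδ0 hδ

end Pool.Agent.Results.MP_0308e6_nt.ShortRuns
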