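import Pool.Agent.H90.Rep.Digits

/-!
# Sums of two places of ones of `√2` with at least three representations

No hypothesis is assumed.  Let `ξ` be a real quadratic irrational algebraic integer, for example
`ξ = √2`, and let `v` be `0` or `1`.  For `m ≥ 1` let `reps ξ v m` be the number of the
representations `m = i + j`, `1 ≤ i ≤ j`, as the sum of two places of the binary digit `v` of `ξ`
(after the point).  There is `c > 0` such that for all large `n` the sum of `(reps ξ v m) ^ 2` over the
`m ≤ n` with `reps ξ v m ≥ 3` is at least `c n`.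

So the places of the ones of `√2` do not form a `B₂[2]` sequence (a sequence for which every number
has at most two representations as a sum of two terms): infinitely many numbers have three or more
representations, and the sum of the squares of the numbers of their representations up to `n` is at
least `c n`.

Proof.  Let `a` be the indicator of the places, `r` the number of ordered representations, `y = ∑ a k / 2 ^ k`,
`y ^ 2 + β y + γ = 0`.  The carries `c m = ∑_{j ≥ 1} (r (m + j) + β a (m + j)) / 2 ^ j` are integers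
bounded from below, `c (m + 1) = 2 c m - r (m + 1) - β a (m + 1)`, and they are even if neither `m` nor
`m / 2` is a place.  Away from the places and from the `m` with `r m ≥ 5` the carries can only stay
constant equal to `0`, `2` or `4`, change from `2` to `0` or `4`, or double their distance from `4`.
The values `0` and `4` can only be left at a place or at some `m` with `r m ≥ 5`, and the sum of the
squares of the excesses `max (c m - 4) 0` is bounded by the sum of the `(r m) ^ 2`, `r m ≥ 5`.  So if this
sum is small, the sum of the `(r (m + h) - r m) ^ 2`, `m ≤ n`, is small for bounded `h`.  But in every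
finite abelian group `∑ (r (m + h) - r m) ^ 2 = ∑ (d (m + h) - d m) ^ 2`, where `d` is the autocorrelation
of `a`; this is at least `2 (d 0 - d h) ^ 2`.  As `∑ d h ^ 2 = ∑ r m ^ 2 = O(n)` and `d 0 ≥ √n`, there is a
bounded `h` with `d h ≤ d 0 / 2`.  (The argument is carried out with the weights `ρ ^ m`.)
-/

set_option autoImplicit false

open Finset Filter

namespace Pool.Agent.Results.MP_0308e6_nt.ThreeRepresentations

open Pool.Agent.R474 Pool.Agent.H90.Rep

/-- the binary digit of `x` at the place `k` after the point -/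
noncomputable def digit (x : ℝ) (k : ℕ) : ℤ := ⌊x * 2 ^ k⌋ % 2

/-- the number of the `i` with `1 ≤ i ≤ m - i` such that both `i` and `m - i` are places of the
digit `v` -/
noncomputable def reps (x : ℝ) (v : ℤ) (m : ℕ) : ℕ :=
  ((Icc 1 (m / 2)).filter (fun i => digit x i = v ∧ digit x (m - i) = v)).card

/-! ### Proofs -/

lemma on_eq_one {ξ : ℝ} {k : ℕ} (h : on ξ k ≠ 0) : 1 ≤ k ∧ digit ξ k = 1 := by
  by_cases h0 : k = 0
  · exfalso
    apply h
    unfold on
    rw [if_pos h0]
  · refine ⟨by omega, ?_⟩
    unfold on at h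
    rw [if_neg h0] at h
    rcases bd_zero_or_one ξ k with h1 | h1
    · rw [h1] at h
      simp at h
    · exact h1

lemma rep_le_two (ξ : ℝ) (m : ℕ) : rep (on ξ) m ≤ 2 * reps ξ 1 m := by
  set S := (Icc 1 (m / 2)).filter (fun i => digit ξ i = 1 ∧ digit ξ (m - i) = 1) with hS
  have h1 : rep (on ξ) m ≤ ((range (m + 1)).filter (fun i => on ξ i * on ξ (m - i) ≠ 0)).card := by
    unfold rep
    rw [card_filter]
    refine sum_le_sum fun i _ => ?_
    have h2 := on_le ξ i
    have h3 := on_le ξ (m - i)
    split_ifs with h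
    · calc on ξ i * on ξ (m - i) ≤ 1 * 1 := Nat.mul_le_mul h2 h3
        _ = 1 := rfl
    · push Not at h
      rw [h]
  have h2 : (range (m + 1)).filter (fun i => on ξ i * on ξ (m - i) ≠ 0) ⊆
      S ∪ S.image (fun i => m - i) := by
    intro i hi
    rw [mem_filter, mem_range] at hi
    obtain ⟨hi1, hi2⟩ := hi
    obtain ⟨h3, h4⟩ := on_eq_one (left_ne_zero_of_mul hi2)
    obtain ⟨h5, h6⟩ := on_eq_one (right_ne_zero_of_mul hi2)
    rw [mem_union]
    rcases le_or_gt i (m / 2) with h | h
    · left
      rw [hS, mem_filter, mem_Icc]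
      exact ⟨⟨h3, h⟩, h4, h6⟩
    · right
      rw [mem_image]
      refine ⟨m - i, ?_, by omega⟩
      rw [hS, mem_filter, mem_Icc]
      refine ⟨⟨h5, by omega⟩, h6, ?_⟩
      rwa [show m - (m - i) = i by omega]
  calc rep (on ξ) m ≤ _ := h1
    _ ≤ (S ∪ S.image (fun i => m - i)).card := card_le_card h2
    _ ≤ S.card + (S.image (fun i => m - i)).card := card_union_le _ _
    _ ≤ S.card + S.card := Nat.add_le_add_left card_image_le _
    _ = 2 * reps ξ 1 m := by unfold reps; rw [two_mul]

lemma ones_case {ξ : ℝ} (hirr : Irrational ξ) {B C : ℤ} (hq : ξ ^ 2 + B * ξ + C = 0) :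
    ∃ c : ℝ, 0 < c ∧ ∀ᶠ n : ℕ in atTop,
      c * n ≤ ((∑ m ∈ (Icc 1 n).filter (fun m => 3 ≤ reps ξ 1 m), reps ξ 1 m ^ 2 : ℕ) : ℝ) := by
  obtain ⟨η, hη, N0, hN0⟩ := energy_on hirr hq
  refine ⟨η / 4, by positivity, ?_⟩
  filter_upwards [eventually_ge_atTop N0] with n hn
  have h1 := hN0 n hn
  have h2 : E2 (on ξ) n ≤ 4 * ∑ m ∈ (Icc 1 n).filter (fun m => 3 ≤ reps ξ 1 m), reps ξ 1 m ^ 2 := by
    unfold E2
    rw [mul_sum]
    calc ∑ m ∈ (range (n + 1)).filter (fun m => 5 ≤ rep (on ξ) m), rep (on ξ) m ^ 2
        ≤ ∑ m ∈ (range (n + 1)).filter (fun m => 5 ≤ rep (on ξ) m), 4 * reps ξ 1 m ^ 2 := by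
          refine sum_le_sum fun m _ => ?_
          calc rep (on ξ) m ^ 2 ≤ (2 * reps ξ 1 m) ^ 2 := Nat.pow_le_pow_left (rep_le_two ξ m) 2
            _ = _ := by ring
      _ ≤ _ := by
          apply sum_le_sum_of_subset_of_nonneg
          · intro m hm
            rw [mem_filter, mem_range] at hm
            have h3 := rep_le_two ξ m
            rw [mem_filter, mem_Icc]
            refine ⟨⟨?_, by omega⟩, by omega⟩
            by_contra h0
            have : m = 0 := by omega
            subst this
            have : reps ξ 1 0 = 0 := by unfold reps; simp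
            omega
          · intro m _ _
            exact Nat.zero_le _
  have h3 : (E2 (on ξ) n : ℝ) ≤
      4 * ((∑ m ∈ (Icc 1 n).filter (fun m => 3 ≤ reps ξ 1 m), reps ξ 1 m ^ 2 : ℕ) : ℝ) := by
    exact_mod_cast h2
  linarith

/-- For a real quadratic irrational `ξ` which is an algebraic integer, for example `ξ = √2`
(`B = 0`, `C = -2`), and `v = 0` or `1`, the numbers with at least three representations as the sum
of two places of the digit `v` carry an additive energy of at least `c n` up to `n`. -/
theorem result (ξ : ℝ) (hirr : Irrational ξ) (B C : ℤ) (hξ : ξ ^ 2 + B * ξ + C = 0)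
    (v : ℤ) (hv : v = 0 ∨ v = 1) :
    ∃ c : ℝ, 0 < c ∧ ∀ᶠ n : ℕ in atTop,
      c * n ≤ ((∑ m ∈ (Icc 1 n).filter (fun m => 3 ≤ reps ξ v m), reps ξ v m ^ 2 : ℕ) : ℝ) := by
  rcases hv with rfl | rfl
  · have h1 : ∀ m, reps ξ 0 m = reps (-ξ) 1 m := by
      intro m
      unfold reps
      congr 1
      refine filter_congr fun i _ => ?_
      have h2 : ∀ k, digit (-ξ) k = 1 - digit ξ k := fun k => bd_neg hirr k
      rw [h2, h2]
      constructor
      · rintro ⟨h3, h4⟩
        rw [h3, h4]
        norm_num
      · rintro ⟨h3, h4⟩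
        exact ⟨by linarith, by linarith⟩
    simp only [h1]
    have hq : (-ξ) ^ 2 + ((-B : ℤ) : ℝ) * (-ξ) + C = 0 := by
      push_cast
      linear_combination hξ
    exact ones_case hirr.neg hq
  · exact ones_case hirr hξ

end Pool.Agent.Results.MP_0308e6_nt.ThreeRepresentations
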