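import Pool.Agent.H90.NZ.Fin

/-!
# Windows of `t` consecutive binary digits of `√2`

No hypothesis is assumed.

1. Let `v` be `0` or `1` and `t ≥ 1`.  For all large `n`, among the `n + 1 - t` windows of `t`
consecutive places inside `[1, n]` at least `(3 / 2) √(t n)` contain a binary digit of `√2` which is
not `v`.  In other words: the words `0 … 0` and `1 … 1` of length `t` stand at most
`n + 1 - t - (3 / 2) √(t n)` times among the first `n` binary digits of `√2`.
2. For `v = 0` this is uniform in `t` and even in the base: there is `n₀` such that for all bases `b ≥ 2`,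
all `t ≥ 1` and all `n ≥ n₀ t` at least `√(9 gcd(b, 2) t n / 8)` of the windows contain a nonzero digit
of `√2` in base `b`.
3. Let `ξ` be any real quadratic irrational algebraic integer, `b ≥ 2` any base, `t ≥ 1` and let `v` be
one of the digits `0`, `b - 1`.  For all large `n` at least `√(9 gcd(b, 2) t n / 8)` of the windows
contain a digit different from `v`.  (For `t = 1` this is the number of the digits different from
`v` in base `b`; the constant does not depend on `ξ` and is the same for all even bases.)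

Proof.  By averaging over the places modulo `t` it suffices to treat the nonzero digits in the base
`b ^ t` of the numbers `b ^ s ξ`, `s < t`, so let `t = 1`.  Let `x_i` be the digits, `r m = ∑ x_i x_(m-i)`,
and let `T m = ∑_{j ≥ 1} r (m + j) / b ^ j` be the carries, `T (m + 1) = b T m - r (m + 1)`.  Let `τ = gcd(b, 2)`;
off a small set `T m ≥ τ - τ / b`.  Let `k m` be the number of the pairs `i, m - i` of places of nonzero
digits, unordered if `b` is even and ordered if `b` is odd.  Then `r m ≤ τ (b - 1) ^ 2 k m`.  The point is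
that the potential `h m = ⌊(b (T m - τ) + τ) / (τ (b - 1) ^ 2)⌋` satisfies
`k (m + 1) + h (m + 1) ≥ 1 + h m` off the small set.  So the pairs of places have on the average at
least one representation for each `m`, whatever the base is, in the same sense in which this is true for
the ones in the base `2`, and the method and the certificates of the starting files
`Pool.Agent.TH265.RB` (six Fourier coefficients and a covering inequality) give the constant `9 / 8`.
-/

set_option autoImplicit false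

open Finset

namespace Pool.Agent.Results.MP_0308e6_nt.WindowsOfDigits

/-- the `k`-th digit of `ξ` after the point in base `b` -/
noncomputable def digit (b : ℕ) (ξ : ℝ) (k : ℕ) : ℤ := ⌊ξ * (b : ℝ) ^ k⌋ % (b : ℤ)

/-- the number of the windows `k, k + 1, …, k + t - 1` of `t` consecutive places inside `[1, n]` which
contain a digit different from `v` -/
noncomputable def windows (b : ℕ) (ξ : ℝ) (v : ℤ) (t n : ℕ) : ℕ :=
  ((Icc 1 (n + 1 - t)).filter (fun k => ∃ i < t, digit b ξ (k + i) ≠ v)).card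

lemma windows_zero (b : ℕ) (ξ : ℝ) (t n : ℕ) : windows b ξ 0 t n = Pool.Agent.H90.NZ.wins b ξ t n :=
  rfl

lemma digit_neg {b : ℕ} (hb : 2 ≤ b) {ξ : ℝ} (hirr : Irrational ξ) (k : ℕ) :
    digit b (-ξ) k = b - 1 - digit b ξ k := by
  unfold digit
  have h1 : ⌊-ξ * (b : ℝ) ^ k⌋ = -⌊ξ * (b : ℝ) ^ k⌋ - 1 := by
    have h2 : Irrational (ξ * ((b ^ k : ℕ) : ℝ)) := hirr.mul_natCast (by positivity)
    have h3 : ξ * (b : ℝ) ^ k = ξ * ((b ^ k : ℕ) : ℝ) := by push_cast; rfl
    rw [neg_mul, h3]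
    set z : ℝ := ξ * ((b ^ k : ℕ) : ℝ) with hz
    rw [Int.floor_eq_iff]
    push_cast
    have h4 := Int.floor_le z
    have h5 := Int.lt_floor_add_one z
    have h6 : (⌊z⌋ : ℝ) ≠ z := fun h => h2 ⟨(⌊z⌋ : ℚ), by push_cast; exact h⟩
    have h7 : (⌊z⌋ : ℝ) < z := lt_of_le_of_ne h4 h6
    constructor <;> linarith
  rw [h1]
  set m := ⌊ξ * (b : ℝ) ^ k⌋
  have hb' : (0 : ℤ) < b := by exact_mod_cast (by omega : 0 < b)
  have h8 := Int.emod_add_mul_ediv m b
  have h9 := Int.emod_nonneg m hb'.ne'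
  have h10 := Int.emod_lt_of_pos m hb'
  have h11 : -m - 1 = (b - 1 - m % b) + b * (-(m / b) - 1) := by linarith
  rw [h11, Int.add_mul_emod_self_left]
  exact Int.emod_eq_of_lt (by omega) (by omega)

lemma windows_neg {b : ℕ} (hb : 2 ≤ b) {ξ : ℝ} (hirr : Irrational ξ) (t n : ℕ) :
    windows b (-ξ) 0 t n = windows b ξ (b - 1) t n := by
  unfold windows
  congr 1
  refine filter_congr fun k _ => exists_congr fun i => and_congr_right fun _ => not_congr ?_
  rw [digit_neg hb hirr]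
  constructor <;> intro h <;> linarith

theorem general (B C : ℤ) (ξ : ℝ) (hirr : Irrational ξ) (hq : ξ ^ 2 + B * ξ + C = 0) (b : ℕ)
    (hb : 2 ≤ b) (t : ℕ) (ht : 1 ≤ t) (v : ℤ) (hv : v = 0 ∨ v = b - 1) :
    ∃ n₀ : ℕ, ∀ n : ℕ, n₀ ≤ n →
      Real.sqrt (9 * (Nat.gcd b 2 : ℕ) * t * n / 8) ≤ (windows b ξ v t n : ℝ) := by
  rcases hv with rfl | rfl
  · exact Pool.Agent.H90.NZ.wins_quad hb ht hirr hq
  · have hq' : (-ξ) ^ 2 + ((-B : ℤ) : ℝ) * (-ξ) + C = 0 := by
      push_cast
      linear_combination hq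
    obtain ⟨n₀, h⟩ := Pool.Agent.H90.NZ.wins_quad hb ht hirr.neg hq'
    refine ⟨n₀, fun n hn => ?_⟩
    rw [← windows_neg hb hirr]
    exact h n hn

theorem result :
    (∀ v : ℤ, (v = 0 ∨ v = 1) → ∀ t : ℕ, 1 ≤ t → ∃ n₀ : ℕ, ∀ n : ℕ, n₀ ≤ n →
      3 / 2 * Real.sqrt (t * n) ≤ (windows 2 (Real.sqrt 2) v t n : ℝ)) ∧
    (∃ n₀ : ℕ, ∀ b t n : ℕ, 2 ≤ b → 1 ≤ t → n₀ * t ≤ n →
      Real.sqrt (9 * (Nat.gcd b 2 : ℕ) * t * n / 8) ≤ (windows b (Real.sqrt 2) 0 t n : ℝ)) ∧
    (∀ (B C : ℤ) (ξ : ℝ), Irrational ξ → ξ ^ 2 + B * ξ + C = 0 → ∀ b : ℕ, 2 ≤ b → ∀ t : ℕ, 1 ≤ t →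
      ∀ v : ℤ, (v = 0 ∨ v = b - 1) → ∃ n₀ : ℕ, ∀ n : ℕ, n₀ ≤ n →
        Real.sqrt (9 * (Nat.gcd b 2 : ℕ) * t * n / 8) ≤ (windows b ξ v t n : ℝ)) := by
  refine ⟨?_, Pool.Agent.H90.NZ.wins_sqrt_two, general⟩
  intro v hv t ht
  have hs2 : Real.sqrt 2 ^ 2 = 2 := Real.sq_sqrt (by norm_num)
  obtain ⟨n₀, h⟩ := general 0 (-2) (Real.sqrt 2) irrational_sqrt_two
    (by push_cast; linarith) 2 le_rfl t ht v (by
      rcases hv with h | h
      · exact Or.inl h
      · exact Or.inr (by rw [h]; norm_num))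
  refine ⟨n₀, fun n hn => ?_⟩
  refine le_trans (le_of_eq ?_) (h n hn)
  have e : (9 * ((Nat.gcd 2 2 : ℕ) : ℝ) * t * n / 8 : ℝ) = (3 / 2) ^ 2 * (t * n) := by
    norm_num
    ring
  rw [e, Real.sqrt_mul (by positivity : (0 : ℝ) ≤ (3 / 2) ^ 2) ((t : ℝ) * n),
    Real.sqrt_sq (by norm_num)]

end Pool.Agent.Results.MP_0308e6_nt.WindowsOfDigits
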